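import Pool.Agent.helper93.TV.Spec2

/-!
TV, row DJ: the bases J0.
-/

namespace Pool.Agent.helper93.TV

open BigOperators Finset Matrix

variable {I V : Type} [Fintype I] [DecidableEq I] [Fintype V] [DecidableEq V]

theorem DJ_ok_of_map (D : FD I V) (X : Finset I) :
    ∀ (p q : List V) (a b : I), D.ok univ a p → D.ok X b q → p.map D.s2 = q.map D.s2 →
      D.ok X a p := by
  intro p
  induction p with
  | nil =>
    intro q a b _ _ _
    trivial
  | cons e p ih =>
    intro q a b hp hq hm
    cases q with
    | nil => simp at hm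
    | cons e' q =>
      simp only [List.map_cons, List.cons.injEq] at hm
      obtain ⟨h1, _, h3⟩ := hp
      obtain ⟨_, h5, h6⟩ := hq
      refine ⟨h1, ?_, ih q _ _ h3 h6 hm.2⟩
      rw [hm.1]
      exact h5

theorem DJ_ok_univ (D : FD I V) (X : Finset I) :
    ∀ (p : List V) (a : I), D.ok X a p → D.ok univ a p := by
  intro p
  induction p with
  | nil =>
    intro a _
    trivial
  | cons e p ih =>
    intro a hp
    obtain ⟨h1, _, h3⟩ := hp
    exact ⟨h1, mem_univ _, ih _ h3⟩

/-- Two starting points of the same path with the same end point agree. -/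
theorem DJ_start (D : FD I V) (X Y : Finset I) (p : List V) (a b : I) (ha : D.ok X a p)
    (hb : D.ok Y b p) (he : D.en a p = D.en b p) : a = b := by
  cases p with
  | nil => exact he
  | cons e p => exact ha.1.symm.trans hb.1

/-- Row DJ. -/
theorem DJ : DJ_stmt := by
  intro _ hDW hTU _ _ _ _ _ _
  intro I V _ _ _ _ D X F hF m bp hcnt hbase
  have hconn : D.Conn univ F := hF.uf.conn
  refine ⟨?_, ?_, ?_⟩
  · intro β p h
    have h0 : tp F (D.rho (D.s1 β)) p (bp (D.s2 β)) β ≠ 0 := by
      intro h1
      apply h
      simp only [FD.J0, h1, star_zero]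
    obtain ⟨h1, h2, h3, h4, h5, h6⟩ := tp_supp D univ F hconn _ _ _ _ h0
    rw [D.t_rho] at h1 h5
    obtain ⟨b1, b2, b3⟩ := hbase (D.s2 β)
    refine ⟨?_, ?_, h5.symm⟩
    · rw [mem_lists, tp_length F _ _ _ _ h0]
      exact mem_lists.1 b1
    · exact DJ_ok_of_map D X p (bp (D.s2 β)) _ _ h1 b2 h6
  · intro β β' hs1 hs2
    obtain ⟨b1, b2, b3⟩ := hbase (D.s2 β)
    have key := (hTU I V D univ F hconn m).2 (bp (D.s2 β)) β (bp (D.s2 β)) β' (mem_univ _) b1 b1
      ⟨D.o, DJ_ok_univ D X _ _ b2, b3⟩
    rw [Finset.sum_eq_single (D.rho (D.s1 β))] at key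
    · have e1 : ∀ p ∈ lists V m, D.J0 F bp β p * star (D.J0 F bp β' p) =
          star (tp F (D.rho (D.s1 β)) p (bp (D.s2 β)) β) *
            tp F (D.rho (D.s1 β)) p (bp (D.s2 β)) β' := by
        intro p _
        simp only [FD.J0, star_star, ← hs1, ← hs2]
      rw [Finset.sum_congr rfl e1, key]
      simp
    · intro l _ hl
      apply Finset.sum_eq_zero
      intro p _
      by_contra hne
      have h0 : tp F l p (bp (D.s2 β)) β ≠ 0 := by
        intro h1
        apply hne
        rw [h1, star_zero, zero_mul]
      obtain ⟨h1, h2, h3, h4, h5, h6⟩ := tp_supp D univ F hconn _ _ _ _ h0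
      have h7 : D.s2 l = D.o := by
        apply DJ_start D univ X (bp (D.s2 β)) _ _ h2 b2
        rw [← h4, b3]
      apply hl
      rw [← h3]
      exact D.rho_unique l h7
    · intro h
      exact absurd (mem_univ _) h
  · intro a b p q
    obtain ⟨b1, b2, b3⟩ := hbase b
    have hOp : D.Op X m m (mu (bp b) (bp b)) := by
      intro p' q' h
      have h' : p' = bp b ∧ q' = bp b := by
        by_contra hn
        apply h
        simp only [mu, if_neg hn]
      rw [h'.1, h'.2]
      exact ⟨b1, b1, b2, b2, rfl⟩
    rw [(hDW I V D X F hF m hcnt).2 m m _ hOp]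
    have e2 : D.phiF F m m (mu (bp b) (bp b)) a p q =
        ∑ β, tp F (D.rho a) p (bp b) β * star (tp F (D.rho a) q (bp b) β) := by
      simp only [FD.phiF]
      rw [Finset.sum_eq_single (bp b)]
      · rw [Finset.sum_eq_single (bp b)]
        · apply Finset.sum_congr rfl
          intro β _
          simp [mu]
        · intro q' _ hq'
          apply Finset.sum_eq_zero
          intro β _
          simp [mu, hq']
        · intro h
          exact absurd b1 h
      · intro p' _ hp'
        apply Finset.sum_eq_zero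
        intro q' _
        apply Finset.sum_eq_zero
        intro β _
        simp [mu, hp']
      · intro h
        exact absurd b1 h
    rw [e2, Finset.sum_filter]
    apply Finset.sum_congr rfl
    intro β _
    split_ifs with hβ
    · simp only [FD.J0, star_star, hβ.1, hβ.2]
    · by_contra hne
      have h0 : tp F (D.rho a) p (bp b) β ≠ 0 := by
        intro h1
        apply hne
        rw [h1, zero_mul]
      obtain ⟨h1, h2, h3, h4, h5, h6⟩ := tp_supp D univ F hconn _ _ _ _ h0
      rw [D.s1_rho] at h3
      rw [D.s2_rho, b3] at h4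
      exact hβ ⟨h3.symm, h4⟩

end Pool.Agent.helper93.TV
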